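import Pool.Agent.Helper9.Fam.Mertens

set_option autoImplicit false

/-!
Mertens' theorem for the primes `3 mod 4`, with an error term, in the form
`∑_{√X < p ≤ X, p ≡ 3 (4)} 1/p = (log 2)/2 + O(1/log X)`.
-/

namespace Pool.Agent.Helper64.BSDL2

open Finset ArithmeticFunction

/-! ### partial summation -/

/-- `∑_{m < k ≤ n} c k f k` for `f` antitone, nonnegative and partial sums of `c` bounded by one. -/
theorem abel_bound {c f : ℕ → ℝ} {m n : ℕ} (hmn : m < n)
    (hc : ∀ j, m < j → |∑ k ∈ Ioc m j, c k| ≤ 1)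
    (hf : ∀ k, m < k → f (k + 1) ≤ f k) (h0 : ∀ k, m < k → 0 ≤ f k) :
    |∑ k ∈ Ioc m n, c k * f k| ≤ f (m + 1) := by
  have key : ∀ j, m + 1 ≤ j → |∑ k ∈ Ioc m j, c k * f k - (∑ k ∈ Ioc m j, c k) * f j|
      ≤ f (m + 1) - f j := by
    intro j hj
    induction j, hj using Nat.le_induction with
    | base =>
      rw [Nat.Ioc_succ_singleton, sum_singleton, sum_singleton]
      simp
    | succ j hj ih =>
      have h1 : ∑ k ∈ Ioc m (j + 1), c k * f k = ∑ k ∈ Ioc m j, c k * f k + c (j + 1) * f (j + 1) :=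
        sum_Ioc_succ_top (by omega) _
      have h2 : ∑ k ∈ Ioc m (j + 1), c k = ∑ k ∈ Ioc m j, c k + c (j + 1) :=
        sum_Ioc_succ_top (by omega) _
      have h3 : ∑ k ∈ Ioc m (j + 1), c k * f k - (∑ k ∈ Ioc m (j + 1), c k) * f (j + 1)
          = (∑ k ∈ Ioc m j, c k * f k - (∑ k ∈ Ioc m j, c k) * f j)
            + (∑ k ∈ Ioc m j, c k) * (f j - f (j + 1)) := by
        rw [h1, h2]; ring
      have h4 := hf j (by omega)
      have h5 : |(∑ k ∈ Ioc m j, c k) * (f j - f (j + 1))| ≤ f j - f (j + 1) := by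
        rw [abs_mul, abs_of_nonneg (by linarith : 0 ≤ f j - f (j + 1))]
        exact mul_le_of_le_one_left (by linarith) (hc j (by omega))
      rw [h3]
      refine (abs_add_le _ _).trans ?_
      linarith
  have h1 := key n hmn
  have h2 : |(∑ k ∈ Ioc m n, c k) * f n| ≤ f n := by
    rw [abs_mul, abs_of_nonneg (h0 n hmn)]
    exact mul_le_of_le_one_left (h0 n hmn) (hc n hmn)
  have h3 : ∑ k ∈ Ioc m n, c k * f k
      = (∑ k ∈ Ioc m n, c k * f k - (∑ k ∈ Ioc m n, c k) * f n) + (∑ k ∈ Ioc m n, c k) * f n := by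
    ring
  rw [h3]
  refine (abs_add_le _ _).trans ?_
  linarith

theorem loglog_step {a b : ℝ} (ha : 0 < a) (hab : a ≤ b) (h1 : b - a ≤ 1) :
    (b - a) / b ≤ Real.log b - Real.log a ∧
      Real.log b - Real.log a ≤ (b - a) / b + (1 / a - 1 / b) := by
  have hb : 0 < b := ha.trans_le hab
  have e : Real.log b - Real.log a = Real.log (b / a) := (Real.log_div hb.ne' ha.ne').symm
  constructor
  · rw [e]
    have h2 := Real.one_sub_inv_le_log_of_pos (show 0 < b / a by positivity)
    refine le_trans (le_of_eq ?_) h2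
    field_simp
  · rw [e]
    have h2 := Real.log_le_sub_one_of_pos (show 0 < b / a by positivity)
    have h3 : b / a - 1 ≤ (b - a) / b + (1 / a - 1 / b) := by
      have h4 : (b - a) / b + (1 / a - 1 / b) - (b / a - 1) = (b - a) * (1 - (b - a)) / (a * b) := by
        field_simp; ring
      have h5 : 0 ≤ (b - a) * (1 - (b - a)) / (a * b) := by
        apply div_nonneg (mul_nonneg (by linarith) (by linarith)) (by positivity)
      linarith
    linarith

theorem log_succ_sub {n : ℕ} (hn : 1 ≤ n) : Real.log ((n + 1 : ℕ) : ℝ) - Real.log n ≤ 1 / n := by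
  have hn0 : (0 : ℝ) < n := by exact_mod_cast hn
  rw [← Real.log_div (by positivity) hn0.ne']
  have h2 := Real.log_le_sub_one_of_pos (show (0 : ℝ) < ((n + 1 : ℕ) : ℝ) / n by positivity)
  refine h2.trans (le_of_eq ?_)
  push_cast
  field_simp
  ring

theorem log_mono {m n : ℕ} (hm : 1 ≤ m) (h : m ≤ n) : Real.log m ≤ Real.log n :=
  Real.log_le_log (by exact_mod_cast hm) (by exact_mod_cast h)

/-- comparison of the weighted sum with `loglog` -/
theorem model_sum {M : ℕ} (hM : 2 ≤ M) {n : ℕ} (hn : M ≤ n) :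
    |∑ k ∈ Ioc M n, (Real.log k - Real.log ((k - 1 : ℕ) : ℝ)) / Real.log k
      - (Real.log (Real.log n) - Real.log (Real.log M))| ≤ 1 / Real.log M - 1 / Real.log n := by
  induction n, hn using Nat.le_induction with
  | base => simp
  | succ n hn ih =>
    rw [sum_Ioc_succ_top (by omega)]
    have hl : 0 < Real.log n := Real.log_pos (by exact_mod_cast (by omega : 1 < n))
    have hle := log_mono (m := n) (n := n + 1) (by omega) (by omega)
    have h1 : Real.log ((n + 1 : ℕ) : ℝ) - Real.log n ≤ 1 := by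
      refine (log_succ_sub (by omega)).trans ?_
      rw [div_le_one (by exact_mod_cast (by omega : 0 < n))]
      exact_mod_cast (by omega : 1 ≤ n)
    obtain ⟨h2, h3⟩ := loglog_step hl hle h1
    rw [show n + 1 - 1 = n by omega]
    rw [abs_le] at ih ⊢
    constructor <;> linarith [ih.1, ih.2]

/-- the sum of `a k / log k` over `√X < k ≤ X` when `∑_{k ≤ n} a k = c log n + O(1)` -/
theorem sqrt_sum {a : ℕ → ℝ} {c K : ℝ} (hK : 0 ≤ K)
    (hA : ∀ n : ℕ, 1 ≤ n → |∑ k ∈ Ioc 0 n, a k - c * Real.log n| ≤ K) :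
    ∃ C : ℝ, ∀ X : ℕ, 2 ≤ X →
      |∑ k ∈ Ioc (Nat.sqrt X) X, a k / Real.log k - c * Real.log 2| ≤ C / Real.log X := by
  have main : ∀ X : ℕ, 4 ≤ X →
      |∑ k ∈ Ioc (Nat.sqrt X) X, a k / Real.log k - c * Real.log 2|
        ≤ (4 * K + 8 * |c|) / Real.log X := by
    intro X hX
    obtain ⟨M, hMdef⟩ : ∃ M, M = Nat.sqrt X := ⟨_, rfl⟩
    rw [← hMdef]
    have hM2 : 2 ≤ M := by
      rw [hMdef, Nat.le_sqrt]; omega
    have hMX : M ^ 2 ≤ X := by rw [hMdef, pow_two]; exact Nat.sqrt_le X
    have hXM : X < (M + 1) ^ 2 := by rw [hMdef, pow_two]; exact Nat.lt_succ_sqrt X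
    have hMltX : M < X := by nlinarith
    -- step 1
    set E : ℕ → ℝ := fun n => ∑ k ∈ Ioc 0 n, a k - c * Real.log n with hE
    set l : ℕ → ℝ := fun n => Real.log n with hl
    have hlpos : ∀ n, 2 ≤ n → 0 < l n := fun n hn =>
      Real.log_pos (by exact_mod_cast (by omega : 1 < n))
    have hlmono : ∀ m n, 1 ≤ m → m ≤ n → l m ≤ l n := fun m n hm h => log_mono hm h
    have key : ∀ n, M + 1 ≤ n →
        |(∑ k ∈ Ioc M n, a k / l k) - c * (∑ k ∈ Ioc M n, (l k - l (k - 1)) / l k)
          - E n / l n + E M / l (M + 1)| ≤ K * (1 / l (M + 1) - 1 / l n) := by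
      intro n hn
      induction n, hn using Nat.le_induction with
      | base =>
        rw [Nat.Ioc_succ_singleton, sum_singleton, sum_singleton]
        have h1 : E (M + 1) = E M + a (M + 1) - c * (l (M + 1) - l M) := by
          simp only [hE, hl]
          rw [sum_Ioc_succ_top (by omega)]
          ring
        have h2 := (hlpos (M + 1) (by omega)).ne'
        rw [h1, show M + 1 - 1 = M by omega]
        have h3 : a (M + 1) / l (M + 1) - c * ((l (M + 1) - l M) / l (M + 1))
          - (E M + a (M + 1) - c * (l (M + 1) - l M)) / l (M + 1) + E M / l (M + 1) = 0 := by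
          field_simp
          ring
        rw [h3]
        simp
      | succ n hn ih =>
        rw [sum_Ioc_succ_top (by omega), sum_Ioc_succ_top (by omega)]
        have h1 : E (n + 1) = E n + a (n + 1) - c * (l (n + 1) - l n) := by
          simp only [hE, hl]
          rw [sum_Ioc_succ_top (by omega)]
          ring
        have h2 := (hlpos (n + 1) (by omega)).ne'
        have h2' := (hlpos n (by omega)).ne'
        rw [show n + 1 - 1 = n by omega]
        have h3 : (∑ k ∈ Ioc M n, a k / l k + a (n + 1) / l (n + 1))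
            - c * (∑ k ∈ Ioc M n, (l k - l (k - 1)) / l k + (l (n + 1) - l n) / l (n + 1))
            - E (n + 1) / l (n + 1) + E M / l (M + 1)
            = (∑ k ∈ Ioc M n, a k / l k - c * (∑ k ∈ Ioc M n, (l k - l (k - 1)) / l k)
              - E n / l n + E M / l (M + 1)) + E n * (1 / l n - 1 / l (n + 1)) := by
          rw [h1]
          field_simp
          ring
        rw [h3]
        refine (abs_add_le _ _).trans ?_
        have h4 : 0 ≤ 1 / l n - 1 / l (n + 1) := by
          have := one_div_le_one_div_of_le (hlpos n (by omega)) (hlmono n (n + 1) (by omega) (by omega))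
          linarith
        have h5 : |E n * (1 / l n - 1 / l (n + 1))| ≤ K * (1 / l n - 1 / l (n + 1)) := by
          rw [abs_mul, abs_of_nonneg h4]
          exact mul_le_mul_of_nonneg_right (hA n (by omega)) h4
        have h6 : K * (1 / l (M + 1) - 1 / l (n + 1))
            = K * (1 / l (M + 1) - 1 / l n) + K * (1 / l n - 1 / l (n + 1)) := by ring
        linarith
    have hk := key X (by omega)
    have hlM := hlpos M hM2
    have hlM1 := hlpos (M + 1) (by omega)
    have hlX := hlpos X (by omega)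
    have e1 : |E X / l X| ≤ K / l X := by
      rw [abs_div, abs_of_pos hlX]
      exact div_le_div_of_nonneg_right (hA X (by omega)) hlX.le
    have e2 : |E M / l (M + 1)| ≤ K / l (M + 1) := by
      rw [abs_div, abs_of_pos hlM1]
      exact div_le_div_of_nonneg_right (hA M (by omega)) hlM1.le
    -- logarithms
    have g1 : l X ≤ 2 * l (M + 1) := by
      have : l X ≤ Real.log (((M + 1 : ℕ) : ℝ) ^ 2) := by
        apply Real.log_le_log (by exact_mod_cast (by omega : 0 < X))
        exact_mod_cast hXM.le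
      rw [Real.log_pow] at this
      exact_mod_cast this
    have g2 : 2 * l M ≤ l X := by
      have : Real.log ((M : ℝ) ^ 2) ≤ l X := by
        apply Real.log_le_log (by positivity)
        exact_mod_cast hMX
      rw [Real.log_pow] at this
      exact_mod_cast this
    have g3 : l (M + 1) ≤ 2 * l M := by
      have : l (M + 1) ≤ Real.log ((M : ℝ) ^ 2) := by
        apply Real.log_le_log (by positivity)
        have : M + 1 ≤ M ^ 2 := by nlinarith
        exact_mod_cast this
      rw [Real.log_pow] at this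
      exact_mod_cast this
    have g4 : l (M + 1) ≤ l M + 1 / M := by
      have := log_succ_sub (n := M) (by omega)
      simp only [hl]; linarith
    have i1 : 1 / l (M + 1) ≤ 2 / l X := by
      rw [div_le_div_iff₀ hlM1 hlX]; linarith
    have i2 : 1 / l M ≤ 4 / l X := by
      rw [div_le_div_iff₀ hlM hlX]; linarith
    have hmod := model_sum hM2 hMltX.le
    have j1 : 0 ≤ Real.log (l X) - Real.log (l M) - Real.log 2 := by
      rw [← Real.log_div hlX.ne' hlM.ne', ← Real.log_div (by positivity) (by norm_num)]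
      apply Real.log_nonneg
      rw [le_div_iff₀ (by norm_num), le_div_iff₀ hlM]; linarith
    have j2 : Real.log (l X) - Real.log (l M) - Real.log 2 ≤ 1 / l M := by
      rw [← Real.log_div hlX.ne' hlM.ne', ← Real.log_div (by positivity) (by norm_num)]
      refine (Real.log_le_sub_one_of_pos (by positivity)).trans ?_
      have hM0 : (0 : ℝ) < M := by exact_mod_cast (by omega : 0 < M)
      have hM1 : (1 : ℝ) / M ≤ 1 := by
        rw [div_le_one hM0]; exact_mod_cast (by omega : 1 ≤ M)
      have : l X / l M / 2 - 1 = (l X - 2 * l M) / 2 / l M := by field_simp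
      rw [this]
      apply div_le_div_of_nonneg_right _ hlM.le
      linarith
    have j3 : |(∑ k ∈ Ioc M X, (l k - l (k - 1)) / l k) - Real.log 2| ≤ 2 / l M := by
      have h1 : 0 ≤ 1 / l X := by positivity
      have h2 : (2 : ℝ) / l M = 1 / l M + 1 / l M := by ring
      rw [abs_le] at hmod ⊢
      simp only [hl] at *
      constructor <;> linarith [hmod.1, hmod.2]
    have fin : ∑ k ∈ Ioc M X, a k / l k - c * Real.log 2
        = ((∑ k ∈ Ioc M X, a k / l k) - c * (∑ k ∈ Ioc M X, (l k - l (k - 1)) / l k)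
          - E X / l X + E M / l (M + 1)) + E X / l X - E M / l (M + 1)
          + c * ((∑ k ∈ Ioc M X, (l k - l (k - 1)) / l k) - Real.log 2) := by ring
    have fin2 : |c * ((∑ k ∈ Ioc M X, (l k - l (k - 1)) / l k) - Real.log 2)| ≤ |c| * (2 / l M) := by
      rw [abs_mul]; exact mul_le_mul_of_nonneg_left j3 (abs_nonneg c)
    have fin3 : |c| * (2 / l M) ≤ 8 * |c| / l X := by
      have : (2 : ℝ) / l M ≤ 8 / l X := by
        have : (2 : ℝ) / l M = 2 * (1 / l M) := by ring
        rw [this]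
        have : (8 : ℝ) / l X = 2 * (4 / l X) := by ring
        rw [this]; linarith
      calc |c| * (2 / l M) ≤ |c| * (8 / l X) := mul_le_mul_of_nonneg_left this (abs_nonneg c)
        _ = _ := by ring
    have fin4 : K * (1 / l (M + 1) - 1 / l X) + K / l X + K / l (M + 1) ≤ 4 * K / l X := by
      have : K * (1 / l (M + 1) - 1 / l X) + K / l X + K / l (M + 1) = 2 * K * (1 / l (M + 1)) := by
        ring
      rw [this]
      calc 2 * K * (1 / l (M + 1)) ≤ 2 * K * (2 / l X) := mul_le_mul_of_nonneg_left i1 (by positivity)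
        _ = _ := by ring
    rw [fin]
    have t1 := abs_add_le (((∑ k ∈ Ioc M X, a k / l k) - c * (∑ k ∈ Ioc M X, (l k - l (k - 1)) / l k)
          - E X / l X + E M / l (M + 1)) + E X / l X - E M / l (M + 1))
          (c * ((∑ k ∈ Ioc M X, (l k - l (k - 1)) / l k) - Real.log 2))
    have t2 := abs_sub (((∑ k ∈ Ioc M X, a k / l k) - c * (∑ k ∈ Ioc M X, (l k - l (k - 1)) / l k)
          - E X / l X + E M / l (M + 1)) + E X / l X) (E M / l (M + 1))
    have t3 := abs_add_le ((∑ k ∈ Ioc M X, a k / l k) - c * (∑ k ∈ Ioc M X, (l k - l (k - 1)) / l k)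
          - E X / l X + E M / l (M + 1)) (E X / l X)
    have t4 : (4 * K + 8 * |c|) / Real.log X = 4 * K / l X + 8 * |c| / l X := by
      simp only [hl]; ring
    rw [t4]
    linarith
  refine ⟨4 * K + 8 * |c| + (|a 2 / Real.log 2| + |a 3 / Real.log 3| + |c * Real.log 2|) * Real.log 3,
    ?_⟩
  intro X hX
  have hlX : 0 < Real.log X := Real.log_pos (by exact_mod_cast (by omega : 1 < X))
  rcases lt_or_ge X 4 with h | h
  · have hl3 : Real.log X ≤ Real.log 3 :=
      Real.log_le_log (by exact_mod_cast (by omega : 0 < X)) (by exact_mod_cast (by omega : X ≤ 3))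
    have hs : Nat.sqrt X = 1 := by
      have h1 : 1 ≤ Nat.sqrt X := by rw [Nat.le_sqrt]; omega
      have h2 : Nat.sqrt X < 2 := by rw [Nat.sqrt_lt]; omega
      omega
    rw [hs]
    have hb : |∑ k ∈ Ioc 1 X, a k / Real.log k - c * Real.log 2|
        ≤ |a 2 / Real.log 2| + |a 3 / Real.log 3| + |c * Real.log 2| := by
      refine (abs_sub _ _).trans ?_
      apply add_le_add_left
      interval_cases X
      · rw [show Ioc 1 2 = {2} by rfl, sum_singleton]
        have := abs_nonneg (a 3 / Real.log 3)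
        push_cast
        linarith
      · rw [show Ioc 1 3 = {2, 3} by rfl, sum_pair (by norm_num)]
        push_cast
        exact abs_add_le _ _
    refine hb.trans ?_
    rw [le_div_iff₀ hlX]
    have h5 : 0 ≤ |a 2 / Real.log 2| + |a 3 / Real.log 3| + |c * Real.log 2| := by positivity
    have h6 := mul_le_mul_of_nonneg_left hl3 h5
    have h7 : 0 ≤ 4 * K + 8 * |c| := by positivity
    linarith
  · refine (main X h).trans ?_
    apply div_le_div_of_nonneg_right _ hlX.le
    have h5 : 0 ≤ |a 2 / Real.log 2| + |a 3 / Real.log 3| + |c * Real.log 2| := by positivity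
    have h6 : 0 ≤ Real.log 3 := Real.log_nonneg (by norm_num)
    nlinarith

/-! ### the character modulo 4 -/

/-- the nontrivial character modulo 4 -/
def ch (n : ℕ) : ℝ := if n % 4 = 1 then 1 else if n % 4 = 3 then -1 else 0

theorem ch_mul (m n : ℕ) : ch (m * n) = ch m * ch n := by
  unfold ch
  rw [Nat.mul_mod]
  have h1 : m % 4 < 4 := Nat.mod_lt _ (by norm_num)
  have h2 : n % 4 < 4 := Nat.mod_lt _ (by norm_num)
  interval_cases m % 4 <;> interval_cases n % 4 <;> norm_num

theorem abs_ch_le (n : ℕ) : |ch n| ≤ 1 := by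
  unfold ch
  split_ifs <;> norm_num

/-- sum of `ch` over `(m, j]` -/
theorem sum_ch (m j : ℕ) (h : m ≤ j) : ∑ k ∈ Ioc m j, ch k =
    (if j % 4 = 1 ∨ j % 4 = 2 then 1 else 0) - (if m % 4 = 1 ∨ m % 4 = 2 then 1 else 0) := by
  induction j, h using Nat.le_induction with
  | base => simp
  | succ j hj ih =>
    rw [sum_Ioc_succ_top (by omega), ih]
    unfold ch
    rw [Nat.add_mod]
    have h1 : j % 4 < 4 := Nat.mod_lt _ (by norm_num)
    interval_cases j % 4 <;> norm_num <;> ring

theorem abs_sum_ch (m j : ℕ) (h : m ≤ j) : |∑ k ∈ Ioc m j, ch k| ≤ 1 := by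
  rw [sum_ch m j h]
  split_ifs <;> norm_num

/-- `∑_{k ≤ n} ch k / k` -/
noncomputable def Hs (n : ℕ) : ℝ := ∑ k ∈ Ioc 0 n, ch k / k

theorem Hs_sub {m n : ℕ} (h : m ≤ n) : |Hs n - Hs m| ≤ 1 / ((m : ℝ) + 1) := by
  rcases h.eq_or_lt with rfl | h
  · rw [sub_self, abs_zero]; positivity
  have h1 : Hs n - Hs m = ∑ k ∈ Ioc m n, ch k * (1 / (k : ℝ)) := by
    unfold Hs
    rw [← Finset.sum_Ioc_consecutive _ (Nat.zero_le m) h.le]
    rw [add_sub_cancel_left]
    exact sum_congr rfl fun k _ => by ring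
  rw [h1]
  have := abel_bound (c := ch) (f := fun k : ℕ => 1 / (k : ℝ)) h (fun j hj => abs_sum_ch m j hj.le)
    (fun k hk => by
      apply one_div_le_one_div_of_le
      · exact_mod_cast (by omega : 0 < k)
      · push_cast; linarith)
    (fun k _ => by positivity)
  push_cast at this
  exact this

theorem exists_L : ∃ L : ℝ, 0 < L ∧ ∀ n : ℕ, |L - Hs n| ≤ 1 / ((n : ℝ) + 1) := by
  have hcau : CauchySeq Hs := by
    apply cauchySeq_of_le_tendsto_0 (fun n : ℕ => 2 / ((n : ℝ) + 1))
    · intro n m N hn hm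
      have h1 := Hs_sub hn
      have h2 := Hs_sub hm
      rw [Real.dist_eq]
      have h3 : Hs n - Hs m = (Hs n - Hs N) - (Hs m - Hs N) := by ring
      rw [h3]
      refine (abs_sub _ _).trans ?_
      have h4 : 2 / ((N : ℝ) + 1) = 1 / ((N : ℝ) + 1) + 1 / ((N : ℝ) + 1) := by ring
      rw [h4]
      exact add_le_add h1 h2
    · have := (tendsto_one_div_add_atTop_nhds_zero_nat (𝕜 := ℝ)).const_mul 2
      rw [mul_zero] at this
      refine this.congr fun n => ?_
      ring
  obtain ⟨L, hL⟩ := cauchySeq_tendsto_of_complete hcau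
  have hb : ∀ n : ℕ, |L - Hs n| ≤ 1 / ((n : ℝ) + 1) := by
    intro n
    have h1 : Filter.Tendsto (fun m => |Hs m - Hs n|) Filter.atTop (nhds |L - Hs n|) :=
      (hL.sub_const _).abs
    apply le_of_tendsto h1
    filter_upwards [Filter.eventually_ge_atTop n] with m hm
    exact Hs_sub hm
  refine ⟨L, ?_, hb⟩
  have h1 := hb 3
  have h2 : Hs 3 = 2 / 3 := by
    unfold Hs
    rw [show Ioc 0 3 = {1, 2, 3} by rfl]
    simp [ch]
    norm_num
  rw [h2, abs_le] at h1
  norm_num at h1
  linarith [h1.1]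

theorem log_div_anti {k : ℕ} (hk : 3 < k) :
    Real.log ((k + 1 : ℕ) : ℝ) / ((k + 1 : ℕ) : ℝ) ≤ Real.log k / k := by
  have h3 : Real.exp 1 ≤ 3 := by
    have := Real.exp_one_lt_d9
    linarith
  have hk' : (3 : ℝ) ≤ k := by exact_mod_cast hk.le
  apply Real.log_div_self_antitoneOn
  · exact h3.trans hk'
  · show Real.exp 1 ≤ ((k + 1 : ℕ) : ℝ)
    push_cast; linarith
  · push_cast; linarith

theorem G_bound : ∃ K : ℝ, 0 ≤ K ∧ ∀ n : ℕ, |∑ k ∈ Ioc 0 n, ch k * (Real.log k / k)| ≤ K := by
  refine ⟨|∑ k ∈ Ioc 0 1, ch k * (Real.log k / k)| + |∑ k ∈ Ioc 0 2, ch k * (Real.log k / k)|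
    + |∑ k ∈ Ioc 0 3, ch k * (Real.log k / k)| + Real.log 4 / 4, ?_, ?_⟩
  · have : 0 ≤ Real.log 4 := Real.log_nonneg (by norm_num)
    positivity
  intro n
  have h4 : 0 ≤ Real.log 4 / 4 := by
    have : 0 ≤ Real.log 4 := Real.log_nonneg (by norm_num)
    positivity
  have a1 := abs_nonneg (∑ k ∈ Ioc 0 1, ch k * (Real.log k / k))
  have a2 := abs_nonneg (∑ k ∈ Ioc 0 2, ch k * (Real.log k / k))
  have a3 := abs_nonneg (∑ k ∈ Ioc 0 3, ch k * (Real.log k / k))
  rcases lt_or_ge 3 n with h | h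
  · rw [← Finset.sum_Ioc_consecutive _ (Nat.zero_le 3) h.le]
    refine (abs_add_le _ _).trans ?_
    have := abel_bound (c := ch) (f := fun k : ℕ => Real.log k / k) h
      (fun j hj => abs_sum_ch 3 j hj.le) (fun k hk => log_div_anti hk)
      (fun k _ => div_nonneg (Real.log_natCast_nonneg k) (by positivity))
    have h5 : Real.log ((3 + 1 : ℕ) : ℝ) / ((3 + 1 : ℕ) : ℝ) = Real.log 4 / 4 := by norm_num
    rw [h5] at this
    linarith
  · interval_cases n
    · simp only [Ioc_self, sum_empty, abs_zero]; linarith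
    · linarith
    · linarith
    · linarith

/-! ### von Mangoldt -/


theorem psi_nat (n : ℕ) : ∑ d ∈ Ioc 0 n, ArithmeticFunction.vonMangoldt d ≤ (Real.log 4 + 4) * n := by
  have h := Chebyshev.psi_le_const_mul_self (x := (n : ℝ)) (by positivity)
  unfold Chebyshev.psi at h
  rwa [Nat.floor_natCast] at h

/-- the convolution identity -/
theorem conv_ch (n : ℕ) : ∑ k ∈ Ioc 0 n, ch k * (Real.log k / k)
    = ∑ d ∈ Ioc 0 n, ArithmeticFunction.vonMangoldt d * ch d / d * Hs (n / d) := by
  set F : ArithmeticFunction ℝ := ⟨fun d => ArithmeticFunction.vonMangoldt d * ch d / d, by simp⟩ with hF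
  set g : ArithmeticFunction ℝ := ⟨fun d => ch d / d, by simp⟩ with hg
  have h1 := ArithmeticFunction.sum_Ioc_mul_eq_sum_sum F g n
  have h2 : ∀ k ∈ Ioc 0 n, (F * g) k = ch k * (Real.log k / k) := by
    intro k hk
    have hk0 : 0 < k := (mem_Ioc.1 hk).1
    rw [ArithmeticFunction.mul_apply]
    have h3 : ∀ x ∈ k.divisorsAntidiagonal, F x.1 * g x.2 = ArithmeticFunction.vonMangoldt x.1 * (ch k / k) := by
      intro x hx
      rw [Nat.mem_divisorsAntidiagonal] at hx
      have h4 : (x.1 : ℝ) * x.2 = k := by exact_mod_cast hx.1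
      show ArithmeticFunction.vonMangoldt x.1 * ch x.1 / x.1 * (ch x.2 / x.2) = _
      rw [← hx.1, ch_mul]
      push_cast
      rw [← div_div]
      ring
    rw [sum_congr rfl h3, ← sum_mul]
    have h5 : ∑ x ∈ k.divisorsAntidiagonal, ArithmeticFunction.vonMangoldt x.1 = Real.log k := by
      rw [← ArithmeticFunction.vonMangoldt_sum, Nat.sum_divisorsAntidiagonal (fun i _ => ArithmeticFunction.vonMangoldt i)]
    rw [h5]; ring
  rw [← sum_congr rfl h2, h1]
  rfl

theorem S_bound : ∃ K : ℝ, 0 ≤ K ∧ ∀ n : ℕ, |∑ d ∈ Ioc 0 n, ArithmeticFunction.vonMangoldt d * ch d / d| ≤ K := by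
  obtain ⟨L, hL, hLb⟩ := exists_L
  obtain ⟨K, hK, hKb⟩ := G_bound
  have hl4 : 0 ≤ Real.log 4 := Real.log_nonneg (by norm_num)
  refine ⟨(K + (Real.log 4 + 4)) / L, by positivity, ?_⟩
  intro n
  rw [le_div_iff₀ hL, ← abs_of_pos hL, ← abs_mul]
  have h1 : (∑ d ∈ Ioc 0 n, ArithmeticFunction.vonMangoldt d * ch d / d) * L = (∑ k ∈ Ioc 0 n, ch k * (Real.log k / k))
      + ∑ d ∈ Ioc 0 n, ArithmeticFunction.vonMangoldt d * ch d / d * (L - Hs (n / d)) := by
    rw [conv_ch, sum_mul, ← sum_add_distrib]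
    exact sum_congr rfl fun d _ => by ring
  rw [h1]
  refine (abs_add_le _ _).trans (add_le_add (hKb n) ?_)
  refine (abs_sum_le_sum_abs _ _).trans ?_
  rcases Nat.eq_zero_or_pos n with rfl | hn
  · simp; positivity
  have hn0 : (0 : ℝ) < n := by exact_mod_cast hn
  have h2 : ∀ d ∈ Ioc 0 n, |ArithmeticFunction.vonMangoldt d * ch d / d * (L - Hs (n / d))| ≤ ArithmeticFunction.vonMangoldt d / n := by
    intro d hd
    have hd0 : 0 < d := (mem_Ioc.1 hd).1
    have hd0' : (0 : ℝ) < d := by exact_mod_cast hd0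
    have h3 : |L - Hs (n / d)| ≤ d / n := by
      refine (hLb _).trans ?_
      rw [div_le_div_iff₀ (by positivity) hn0, one_mul]
      have := Nat.lt_div_mul_add (a := n) hd0
      have h4 : (n : ℝ) ≤ (n / d : ℕ) * d + d := by exact_mod_cast this.le
      nlinarith
    have h5 : |ArithmeticFunction.vonMangoldt d * ch d / d| ≤ ArithmeticFunction.vonMangoldt d / d := by
      rw [abs_div, abs_mul, abs_of_pos hd0', abs_of_nonneg vonMangoldt_nonneg]
      apply div_le_div_of_nonneg_right _ hd0'.le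
      exact mul_le_of_le_one_right vonMangoldt_nonneg (abs_ch_le d)
    rw [abs_mul]
    calc |ArithmeticFunction.vonMangoldt d * ch d / d| * |L - Hs (n / d)| ≤ ArithmeticFunction.vonMangoldt d / d * (d / n) :=
          mul_le_mul h5 h3 (abs_nonneg _) (div_nonneg vonMangoldt_nonneg hd0'.le)
      _ = ArithmeticFunction.vonMangoldt d / n := by field_simp
  refine (sum_le_sum h2).trans ?_
  rw [← sum_div, div_le_iff₀ hn0]
  exact psi_nat n

/-- `∑_{d ≤ n} ArithmeticFunction.vonMangoldt d / d ≤ log n + C` -/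
theorem sum_vM_div_le {n : ℕ} (hn : 1 ≤ n) :
    ∑ d ∈ Ioc 0 n, ArithmeticFunction.vonMangoldt d / d ≤ Real.log n + (Real.log 4 + 4) := by
  have hn0 : (0 : ℝ) < n := by exact_mod_cast hn
  have h1 : ∑ k ∈ Ioc 0 n, Real.log k = ∑ d ∈ Ioc 0 n, ArithmeticFunction.vonMangoldt d * ((n / d : ℕ) : ℝ) := by
    have := ArithmeticFunction.sum_Ioc_mul_zeta_eq_sum (R := ℝ) ArithmeticFunction.vonMangoldt n
    rw [ArithmeticFunction.vonMangoldt_mul_zeta] at this
    exact this
  have h2 : ∑ k ∈ Ioc 0 n, Real.log k ≤ n * Real.log n := by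
    have : ∑ k ∈ Ioc 0 n, Real.log k ≤ ∑ k ∈ Ioc 0 n, Real.log n := by
      apply sum_le_sum
      intro k hk
      exact log_mono (mem_Ioc.1 hk).1 (mem_Ioc.1 hk).2
    rw [sum_const, Nat.card_Ioc, nsmul_eq_mul] at this
    simpa using this
  have h3 : ∑ d ∈ Ioc 0 n, (ArithmeticFunction.vonMangoldt d * ((n : ℝ) / d) - ArithmeticFunction.vonMangoldt d) ≤ ∑ d ∈ Ioc 0 n, ArithmeticFunction.vonMangoldt d * ((n / d : ℕ) : ℝ) := by
    apply sum_le_sum
    intro d hd
    have hd0 : 0 < d := (mem_Ioc.1 hd).1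
    have hd0' : (0 : ℝ) < d := by exact_mod_cast hd0
    have h4 : (n : ℝ) / d - 1 ≤ ((n / d : ℕ) : ℝ) := by
      have := Nat.lt_div_mul_add (a := n) hd0
      rw [sub_le_iff_le_add, div_le_iff₀ hd0']
      have h5 : (n : ℝ) ≤ (n / d : ℕ) * d + d := by exact_mod_cast this.le
      linarith
    have := mul_le_mul_of_nonneg_left h4 (vonMangoldt_nonneg (n := d))
    linarith
  rw [sum_sub_distrib] at h3
  have h4 : ∑ d ∈ Ioc 0 n, ArithmeticFunction.vonMangoldt d * ((n : ℝ) / d) = n * ∑ d ∈ Ioc 0 n, ArithmeticFunction.vonMangoldt d / d := by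
    rw [mul_sum]
    exact sum_congr rfl fun d _ => by ring
  rw [h4] at h3
  have h5 := psi_nat n
  have h6 : n * ∑ d ∈ Ioc 0 n, ArithmeticFunction.vonMangoldt d / d ≤ n * (Real.log n + (Real.log 4 + 4)) := by nlinarith
  exact le_of_mul_le_mul_left h6 hn0

/-- primes only -/
theorem prime_bound : ∃ K : ℝ, 0 ≤ K ∧ ∀ n : ℕ, 1 ≤ n →
    |∑ p ∈ Ioc 0 n, (if p.Prime then Real.log p / p * ch p else 0)| ≤ K := by
  obtain ⟨K, hK, hKb⟩ := S_bound
  obtain ⟨C, hC, hCb⟩ := Pool.Agent.Helper9.Fam.exists_mertens_lower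
  have hl4 : 0 ≤ Real.log 4 := Real.log_nonneg (by norm_num)
  refine ⟨K + (C + (Real.log 4 + 4)), by positivity, ?_⟩
  intro n hn
  have h1 : ∑ p ∈ Ioc 0 n, (if p.Prime then Real.log p / p * ch p else 0)
      = ∑ d ∈ Ioc 0 n, ArithmeticFunction.vonMangoldt d * ch d / d
        - ∑ d ∈ Ioc 0 n, (if d.Prime then 0 else ArithmeticFunction.vonMangoldt d * ch d / d) := by
    rw [← sum_sub_distrib]
    apply sum_congr rfl
    intro p _
    split_ifs with hp
    · rw [vonMangoldt_apply_prime hp]; ring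
    · ring
  have h2 : |∑ d ∈ Ioc 0 n, (if d.Prime then 0 else ArithmeticFunction.vonMangoldt d * ch d / d)|
      ≤ ∑ d ∈ Ioc 0 n, (if d.Prime then 0 else ArithmeticFunction.vonMangoldt d / d) := by
    refine (abs_sum_le_sum_abs _ _).trans (sum_le_sum fun d hd => ?_)
    have hd0' : (0 : ℝ) < d := by exact_mod_cast (mem_Ioc.1 hd).1
    split_ifs
    · simp
    · rw [abs_div, abs_mul, abs_of_pos hd0', abs_of_nonneg vonMangoldt_nonneg]
      apply div_le_div_of_nonneg_right _ hd0'.le
      exact mul_le_of_le_one_right vonMangoldt_nonneg (abs_ch_le d)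
  have h3 : ∑ d ∈ Ioc 0 n, (if d.Prime then 0 else ArithmeticFunction.vonMangoldt d / d)
      = ∑ d ∈ Ioc 0 n, ArithmeticFunction.vonMangoldt d / d - ∑ r ∈ Pool.Agent.Helper9.Fam.pr n, Real.log r / r := by
    unfold Pool.Agent.Helper9.Fam.pr
    rw [sum_filter, show Icc 1 n = Ioc 0 n by rfl, ← sum_sub_distrib]
    apply sum_congr rfl
    intro p _
    split_ifs with hp
    · rw [vonMangoldt_apply_prime hp]; ring
    · ring
  have h4 := sum_vM_div_le hn
  have h5 := hCb n hn
  rw [h1]
  refine (abs_sub _ _).trans ?_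
  have := hKb n
  linarith

/-- Mertens for the primes `3 mod 4`, with an error term. -/
theorem mertens_three : ∃ C : ℝ, ∀ X : ℕ, 2 ≤ X →
    |∑ p ∈ (Finset.Icc 1 X).filter (fun p : ℕ => p.Prime ∧ p % 4 = 3 ∧ X < p ^ 2), (1 : ℝ) / p
      - Real.log 2 / 2| ≤ C / Real.log X := by
  obtain ⟨K, hK, hKb⟩ := prime_bound
  obtain ⟨C₁, hC₁, hlow⟩ := Pool.Agent.Helper9.Fam.exists_mertens_lower
  have hl4 : 0 ≤ Real.log 4 := Real.log_nonneg (by norm_num)
  obtain ⟨A, hA⟩ := sqrt_sum (a := fun p => if p.Prime then Real.log p / p * ch p else 0) (c := 0)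
    (K := K) hK (by intro n hn; simpa using hKb n hn)
  obtain ⟨B, hB⟩ := sqrt_sum (a := fun p => if p.Prime then Real.log p / p else 0) (c := 1)
    (K := max C₁ (Real.log 4)) (hC₁.trans (le_max_left _ _)) (by
      intro n hn
      have h1 : ∑ k ∈ Ioc 0 n, (if k.Prime then Real.log k / k else 0)
          = ∑ r ∈ Pool.Agent.Helper9.Fam.pr n, Real.log r / (r : ℝ) := by
        unfold Pool.Agent.Helper9.Fam.pr
        rw [sum_filter]; rfl
      rw [h1, abs_le]
      have h2 := hlow n hn
      have h3 := Pool.Agent.Helper9.Fam.sum_log_div_le n hn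
      have h4 := le_max_left C₁ (Real.log 4)
      have h5 := le_max_right C₁ (Real.log 4)
      constructor <;> linarith)
  refine ⟨|A| + |B| + 2 * Real.log 3, ?_⟩
  intro X hX
  have hlX : 0 < Real.log X := Real.log_pos (by exact_mod_cast (by omega : 1 < X))
  have h1 := hA X hX
  have h2 := hB X hX
  -- the sum over primes 3 mod 4
  have h3 : ∑ p ∈ (Finset.Icc 1 X).filter (fun p : ℕ => p.Prime ∧ p % 4 = 3 ∧ X < p ^ 2), (1 : ℝ) / p
      = ∑ p ∈ Ioc (Nat.sqrt X) X, (if p.Prime ∧ p % 4 = 3 then (1 : ℝ) / p else 0) := by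
    rw [← sum_filter]
    apply sum_congr _ fun _ _ => rfl
    ext p
    simp only [mem_filter, mem_Icc, mem_Ioc]
    have h4 : X < p ^ 2 ↔ Nat.sqrt X < p := Nat.sqrt_lt'.symm
    rw [h4]
    constructor
    · rintro ⟨⟨_, h5⟩, h6, h7, h8⟩
      exact ⟨⟨h8, h5⟩, h6, h7⟩
    · rintro ⟨⟨h8, h5⟩, h6, h7⟩
      exact ⟨⟨h6.one_le, h5⟩, h6, h7, h8⟩
  have h4 : ∀ p ∈ Ioc (Nat.sqrt X) X, (if p.Prime ∧ p % 4 = 3 then (1 : ℝ) / p else 0)
      = ((if p.Prime then Real.log p / p else 0) / Real.log p
        - (if p.Prime then Real.log p / p * ch p else 0) / Real.log p) / 2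
        - (if p = 2 then 1 / 4 else 0) := by
    intro p _
    by_cases hp : p.Prime
    · have hlp : Real.log p ≠ 0 := (Real.log_pos (by exact_mod_cast hp.one_lt)).ne'
      have hp0 : (p : ℝ) ≠ 0 := by exact_mod_cast hp.ne_zero
      simp only [hp, true_and, if_true]
      rcases hp.eq_two_or_odd with rfl | hodd
      · simp only [ch]
        norm_num
        field_simp
        norm_num
      · have h5 : p ≠ 2 := by omega
        have h6 : p % 4 = 1 ∨ p % 4 = 3 := by omega
        rcases h6 with h6 | h6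
        · simp [ch, h6, h5]
        · simp only [ch, h6, h5]
          norm_num
          field_simp
          norm_num
    · have h5 : p ≠ 2 := by rintro rfl; exact hp Nat.prime_two
      simp [hp, h5]
  rw [h3, sum_congr rfl h4, sum_sub_distrib, ← sum_div, sum_sub_distrib]
  have h5 : |∑ p ∈ Ioc (Nat.sqrt X) X, (if p = 2 then (1 : ℝ) / 4 else 0)|
      ≤ Real.log 3 / Real.log X := by
    have hl3 : 0 ≤ Real.log 3 := Real.log_nonneg (by norm_num)
    rw [sum_ite_eq']
    split_ifs with h6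
    · rw [mem_Ioc] at h6
      have h7 : X < 4 := by
        have := h6.1
        rw [Nat.sqrt_lt] at this
        omega
      have h8 : Real.log X ≤ Real.log 3 :=
        Real.log_le_log (by exact_mod_cast (by omega : 0 < X)) (by exact_mod_cast (by omega : X ≤ 3))
      rw [le_div_iff₀ hlX, abs_of_pos (by norm_num)]
      linarith
    · rw [abs_zero]; positivity
  have h6 : (|A| + |B| + 2 * Real.log 3) / Real.log X
      = |A| / Real.log X + |B| / Real.log X + 2 * (Real.log 3 / Real.log X) := by ring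
  rw [h6]
  have h7 : A / Real.log X ≤ |A| / Real.log X := div_le_div_of_nonneg_right (le_abs_self A) hlX.le
  have h8 : B / Real.log X ≤ |B| / Real.log X := div_le_div_of_nonneg_right (le_abs_self B) hlX.le
  have h9 : 0 ≤ Real.log 3 / Real.log X := by
    have hl3 : 0 ≤ Real.log 3 := Real.log_nonneg (by norm_num)
    positivity
  rw [zero_mul, sub_zero] at h1
  rw [one_mul] at h2
  rw [abs_le] at h1 h2 h5 ⊢
  constructor <;> linarith [h1.1, h1.2, h2.1, h2.2, h5.1, h5.2]

end Pool.Agent.Helper64.BSDL2
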